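import Pool.Agent.W91.BH.Stm

/-! # Finite sums of atoms -/

set_option autoImplicit false

open MeasureTheory
open scoped ENNReal ContDiff

namespace Pool.Agent.W398.BH

open Pool.Agent.W91.BH

noncomputable section

theorem atom_compact {n M N : ℕ} {Q : Idx n} {a : E n → ℝ} (h : IsAtom n M N Q a) :
    HasCompactSupport a := by
  have hK : IsCompact ((WithLp.toLp 2 : (Fin n → ℝ) → E n) ''
      (Set.pi Set.univ fun i : Fin n => Set.Icc ((((Q.2 i : ℝ) + 1 / 2) - 3 / 2) / (2 : ℝ) ^ Q.1)
        ((((Q.2 i : ℝ) + 1 / 2) + 3 / 2) / (2 : ℝ) ^ Q.1))) :=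
    (isCompact_univ_pi fun i => isCompact_Icc).image (PiLp.continuous_toLp 2 _)
  refine HasCompactSupport.of_support_subset_isCompact hK ?_
  intro x hx
  refine ⟨fun i => x i, ?_, rfl⟩
  intro i _
  have h1 := h.supp x hx i
  rw [abs_le] at h1
  have h2 : (0 : ℝ) < (2 : ℝ) ^ Q.1 := by positivity
  constructor
  · rw [div_le_iff₀ h2]
    linarith [h1.1]
  · rw [le_div_iff₀ h2]
    linarith [h1.2]

theorem atom_int {n M N : ℕ} {Q : Idx n} {a : E n → ℝ} (h : IsAtom n M N Q a) (g : E n → ℝ)
    (hg : Continuous g) : Integrable (fun x => a x * g x) := by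
  apply Continuous.integrable_of_hasCompactSupport
  · exact h.smooth.continuous.mul hg
  · exact (atom_compact h).mul_right

theorem atom_zero (n M N : ℕ) (Q : Idx n) : IsAtom n M N Q (fun _ => 0) := by
  refine ⟨contDiff_const, ?_, ?_, ?_⟩
  · intro x hx
    exact absurd rfl hx
  · intro m _ x
    have : iteratedFDeriv ℝ m (fun _ : E n => (0 : ℝ)) = 0 := iteratedFDeriv_fun_zero
    rw [this]
    simp only [Pi.zero_apply, norm_zero]
    positivity
  · intro _ β _
    simp

theorem atom_conv {n M N : ℕ} {Q : Idx n} {ι : Type} (G : Finset ι) (w : ι → ℝ)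
    (b : ι → E n → ℝ) (hw : ∀ i ∈ G, 0 ≤ w i) (hw1 : ∑ i ∈ G, w i = 1)
    (hb : ∀ i ∈ G, IsAtom n M N Q (b i)) : IsAtom n M N Q (fun x => ∑ i ∈ G, w i * b i x) := by
  refine ⟨?_, ?_, ?_, ?_⟩
  · exact ContDiff.sum fun i hi => contDiff_const.mul (hb i hi).smooth
  · intro x hx
    obtain ⟨i, hi, hi'⟩ := Finset.exists_ne_zero_of_sum_ne_zero hx
    exact (hb i hi).supp x (right_ne_zero_of_mul hi')
  · intro m hm x
    have h1 : iteratedFDeriv ℝ m (fun x => ∑ i ∈ G, w i * b i x) x =
        ∑ i ∈ G, w i • iteratedFDeriv ℝ m (b i) x := by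
      rw [iteratedFDeriv_fun_sum_apply]
      · refine Finset.sum_congr rfl fun i hi => ?_
        have := iteratedFDeriv_const_smul_apply' (𝕜 := ℝ) (a := w i) (i := m) (x := x)
          (f := b i) (((hb i hi).smooth.of_le (by exact_mod_cast le_top)).contDiffAt)
        simpa only [smul_eq_mul] using this
      · intro i hi
        exact ((contDiff_const.mul (hb i hi).smooth).of_le (by exact_mod_cast le_top)).contDiffAt
    rw [h1]
    calc ‖∑ i ∈ G, w i • iteratedFDeriv ℝ m (b i) x‖
        ≤ ∑ i ∈ G, ‖w i • iteratedFDeriv ℝ m (b i) x‖ := norm_sum_le _ _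
      _ ≤ ∑ i ∈ G, w i * ((2 : ℝ) ^ Q.1) ^ m := by
          refine Finset.sum_le_sum fun i hi => ?_
          rw [norm_smul, Real.norm_eq_abs, abs_of_nonneg (hw i hi)]
          exact mul_le_mul_of_nonneg_left ((hb i hi).bound m hm x) (hw i hi)
      _ = ((2 : ℝ) ^ Q.1) ^ m := by rw [← Finset.sum_mul, hw1, one_mul]
  · intro hQ β hβ
    have h1 : ∀ x : E n, (∏ i, x i ^ β i) * ∑ i ∈ G, w i * b i x =
        ∑ i ∈ G, w i * ((∏ j, x j ^ β j) * b i x) := by
      intro x
      rw [Finset.mul_sum]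
      exact Finset.sum_congr rfl fun i _ => by ring
    simp only [h1]
    rw [integral_finsetSum]
    · refine Finset.sum_eq_zero fun i hi => ?_
      rw [integral_const_mul, (hb i hi).moment hQ β hβ, mul_zero]
    · intro i hi
      refine Integrable.const_mul ?_ _
      have hcont : Continuous fun x : E n => ∏ j, x j ^ β j := by
        fun_prop
      refine (atom_int (hb i hi) _ hcont).congr ?_
      exact Filter.Eventually.of_forall fun x => mul_comm _ _

theorem rpow_sum {ι : Type} (G : Finset ι) (w : ι → ℝ) (p : ℝ) (hp0 : 0 < p) (hp1 : p ≤ 1)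
    (hw : ∀ i ∈ G, 0 ≤ w i) : (∑ i ∈ G, w i) ^ p ≤ ∑ i ∈ G, w i ^ p := by
  classical
  induction G using Finset.induction_on with
  | empty => simp [Real.zero_rpow hp0.ne']
  | insert i G hi ih =>
    rw [Finset.sum_insert hi, Finset.sum_insert hi]
    have h1 : 0 ≤ w i := hw i (Finset.mem_insert_self _ _)
    have h2 : ∀ j ∈ G, 0 ≤ w j := fun j hj => hw j (Finset.mem_insert_of_mem hj)
    exact (Real.rpow_add_le_add_rpow h1 (Finset.sum_nonneg h2) hp0.le hp1).trans
      (by gcongr; exact ih h2)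

theorem rep (n M N : ℕ) (α p : ℝ) (ι : Type) (F : Finset ι) (π : ι → Idx n) (c : ι → ℝ)
    (b : ι → E n → ℝ) (hp0 : 0 < p) (hp1 : p ≤ 1) (hc : ∀ i ∈ F, 0 ≤ c i)
    (hb : ∀ i ∈ F, IsAtom n M N (π i) (b i)) :
    ∃ s : Idx n → ℝ, Rep n M N (fun x => ∑ i ∈ F, c i * b i x) s ∧
      bCost n α p s ≤ ∑ i ∈ F, ENNReal.ofReal (((2 : ℝ) ^ (((π i).1 : ℝ) * α) * c i) ^ p) *
        ENNReal.ofReal ((2 : ℝ) ^ (-(((π i).1 : ℝ) * n))) := by
  classical
  let G : Idx n → Finset ι := fun P => F.filter (fun i => π i = P)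
  let s : Idx n → ℝ := fun P => ∑ i ∈ G P, c i
  have hG : ∀ P i, i ∈ G P → i ∈ F ∧ π i = P := fun P i hi => by simpa [G] using hi
  have hs0 : ∀ P, 0 ≤ s P := fun P => Finset.sum_nonneg fun i hi => hc i (hG P i hi).1
  have hsP : ∀ P, P ∉ F.image π → s P = 0 := by
    intro P hP
    refine Finset.sum_eq_zero fun i hi => ?_
    exact absurd (Finset.mem_image.mpr ⟨i, (hG P i hi).1, (hG P i hi).2⟩) hP
  have hcz : ∀ P, s P = 0 → ∀ i ∈ G P, c i = 0 := by
    intro P hP i hi
    exact (Finset.sum_eq_zero_iff_of_nonneg (fun j hj => hc j (hG P j hj).1)).mp hP i hi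
  refine ⟨s, ⟨fun P => if s P = 0 then (fun _ => 0) else
    (fun x => ∑ i ∈ G P, (c i / s P) * b i x), ?_, ?_⟩, ?_⟩
  · intro P
    by_cases h0 : s P = 0
    · simp only [h0, if_true]
      exact atom_zero n M N P
    · simp only [h0, if_false]
      have hpos : 0 < s P := lt_of_le_of_ne (hs0 P) (Ne.symm h0)
      refine atom_conv (G P) (fun i => c i / s P) b ?_ ?_ ?_
      · intro i hi
        exact div_nonneg (hc i (hG P i hi).1) hpos.le
      · rw [← Finset.sum_div]
        exact div_self h0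
      · intro i hi
        have := hb i (hG P i hi).1
        rwa [(hG P i hi).2] at this
  · intro φ
    have hint : ∀ i ∈ F, Integrable (fun x => b i x * φ x) := fun i hi =>
      atom_int (hb i hi) _ φ.continuous
    have key : ∀ P, s P * ∫ x, (if s P = 0 then (fun _ => 0) else
        (fun x => ∑ i ∈ G P, (c i / s P) * b i x) : E n → ℝ) x * φ x =
        ∑ i ∈ G P, c i * ∫ x, b i x * φ x := by
      intro P
      by_cases h0 : s P = 0
      · rw [h0, zero_mul]
        symm
        refine Finset.sum_eq_zero fun i hi => ?_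
        rw [hcz P h0 i hi, zero_mul]
      · simp only [h0, if_false]
        have h1 : ∀ x, (∑ i ∈ G P, (c i / s P) * b i x) * φ x =
            ∑ i ∈ G P, (c i / s P) * (b i x * φ x) := by
          intro x
          rw [Finset.sum_mul]
          exact Finset.sum_congr rfl fun i _ => by ring
        simp only [h1]
        rw [integral_finsetSum]
        · rw [Finset.mul_sum]
          refine Finset.sum_congr rfl fun i hi => ?_
          rw [integral_const_mul]
          field_simp
        · intro i hi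
          exact (hint i (hG P i hi).1).const_mul _
    have h2 : (∫ x, (∑ i ∈ F, c i * b i x) * φ x) =
        ∑ P ∈ F.image π, ∑ i ∈ G P, c i * ∫ x, b i x * φ x := by
      rw [Finset.sum_fiberwise_of_maps_to (fun i hi => Finset.mem_image_of_mem π hi)]
      have h1 : ∀ x, (∑ i ∈ F, c i * b i x) * φ x = ∑ i ∈ F, c i * (b i x * φ x) := by
        intro x
        rw [Finset.sum_mul]
        exact Finset.sum_congr rfl fun i _ => by ring
      simp only [h1]
      rw [integral_finsetSum]
      · refine Finset.sum_congr rfl fun i hi => ?_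
        rw [integral_const_mul]
      · intro i hi
        exact (hint i hi).const_mul _
    simp only [key]
    show HasSum _ (∫ x, (∑ i ∈ F, c i * b i x) * φ x)
    rw [h2]
    apply hasSum_sum_of_ne_finset_zero
    intro P hP
    refine Finset.sum_eq_zero fun i hi => ?_
    rw [hcz P (hsP P hP) i hi, zero_mul]
  · unfold bCost
    rw [tsum_eq_sum (s := F.image π)]
    · rw [← Finset.sum_fiberwise_of_maps_to (fun i hi => Finset.mem_image_of_mem π hi)
        (f := fun i => ENNReal.ofReal (((2 : ℝ) ^ (((π i).1 : ℝ) * α) * c i) ^ p) *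
          ENNReal.ofReal ((2 : ℝ) ^ (-(((π i).1 : ℝ) * n))))]
      refine Finset.sum_le_sum fun P _ => ?_
      have h1 : ∑ i ∈ F with π i = P, ENNReal.ofReal (((2 : ℝ) ^ (((π i).1 : ℝ) * α) * c i) ^ p) *
          ENNReal.ofReal ((2 : ℝ) ^ (-(((π i).1 : ℝ) * n))) =
          ∑ i ∈ G P, ENNReal.ofReal (((2 : ℝ) ^ ((P.1 : ℝ) * α) * c i) ^ p) *
          ENNReal.ofReal ((2 : ℝ) ^ (-((P.1 : ℝ) * n))) := by
        refine Finset.sum_congr rfl fun i hi => ?_
        rw [(hG P i hi).2]
      rw [h1, ← Finset.sum_mul, ← ENNReal.ofReal_sum_of_nonneg]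
      · gcongr
        rw [abs_of_nonneg (hs0 P)]
        show ((2 : ℝ) ^ ((P.1 : ℝ) * α) * ∑ i ∈ G P, c i) ^ p ≤ _
        rw [Finset.mul_sum]
        refine rpow_sum (G P) _ p hp0 hp1 ?_
        intro i hi
        have := hc i (hG P i hi).1
        positivity
      · intro i hi
        have := hc i (hG P i hi).1
        positivity
    · intro P hP
      rw [hsP P hP, abs_zero, mul_zero, Real.zero_rpow hp0.ne', ENNReal.ofReal_zero, zero_mul]

end

end Pool.Agent.W398.BH
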